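import Pool.Agent.Helper56.LD.Goals
import Pool.Agent.Helper56.LD.Basics

set_option autoImplicit false

namespace Helper67.LD

open Set Filter Topology
open Pool.Agent.Helper56.LD

lemma conn_of_retract {X : Type} [TopologicalSpace X] {K A : Set X} (hK : IsConnected K)
    (hA : A ⊆ K) {ρ : X → X} (hρ : ContinuousOn ρ K) (h1 : ∀ z ∈ K, ρ z ∈ A)
    (h2 : ∀ z ∈ A, ρ z = z) : IsConnected A := by
  have : A = ρ '' K := by
    ext z
    constructor
    · intro hz
      exact ⟨z, hA hz, h2 z hz⟩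
    · rintro ⟨y, hy, rfl⟩
      exact h1 y hy
  rw [this]
  exact hK.image ρ hρ

section gen

variable {L Ω : Type} [DecidableEq L] [DecidableEq Ω]

lemma cont_fst : Continuous (fun z : Amb L Ω => z.1) := continuous_fst

lemma cont_wt (j : ℕ) (l : L) : Continuous (fun z : Amb L Ω => z.2.1 j l) :=
  (continuous_apply l).comp ((continuous_apply j).comp (continuous_fst.comp continuous_snd))

lemma cont_star (ω : Ω) : Continuous (fun z : Amb L Ω => z.2.2 ω) :=
  (continuous_apply ω).comp (continuous_snd.comp continuous_snd)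

/-- case 1: everything in the core. -/
lemma case_core (lt : ℕ → L → Ω) (E : Set (ℕ → L)) (K : Set (Amb L Ω)) (hKM : K ⊆ MSet lt E)
    (hKc : IsClosed K) (hK : IsConnected K) (hnt : K.Nontrivial) (hcore : ∀ z ∈ K, z.1 ≤ 0) :
    ∃ A B : Set (Amb L Ω), IsClosed A ∧ IsConnected A ∧ IsClosed B ∧ IsConnected B ∧
        A ⊂ K ∧ B ⊂ K ∧ A ∪ B = K := by
  obtain ⟨p, hp, q, hq, hpq⟩ := hnt
  -- a coordinate that differs
  have hex : ∃ ω, p.2.2 ω ≠ q.2.2 ω := by
    by_contra hcon
    push Not at hcon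
    apply hpq
    obtain ⟨ω1, r1, -, h1⟩ := exists_core_rep (hKM hp) (hcore p hp)
    obtain ⟨ω2, r2, -, h2⟩ := exists_core_rep (hKM hq) (hcore q hq)
    refine amb_ext ?_ ?_ hcon
    · rw [h1, h2]; simp
    · intro j l; rw [h1, h2]; simp
  obtain ⟨ω, hω⟩ := hex
  -- wlog
  obtain ⟨p, hp, q, hq, hlt⟩ : ∃ p ∈ K, ∃ q ∈ K, p.2.2 ω < q.2.2 ω := by
    rcases lt_or_gt_of_ne hω with h | h
    · exact ⟨p, hp, q, hq, h⟩
    · exact ⟨q, hq, p, hp, h⟩
  have hp0 : 0 ≤ p.2.2 ω := by
    obtain ⟨ω1, r1, hr1, h1⟩ := exists_core_rep (hKM hp) (hcore p hp)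
    rw [h1, cpt_star]
    split_ifs
    · exact hr1.1
    · exact le_rfl
  set c : ℝ := (p.2.2 ω + q.2.2 ω) / 2 with hc
  have hc0 : 0 < c := by linarith
  have hpc : p.2.2 ω < c := by linarith
  have hcq : c < q.2.2 ω := by linarith
  -- points with large coordinate
  have key : ∀ z ∈ K, 0 < z.2.2 ω → z = cpt ω (z.2.2 ω) := by
    intro z hz hcz
    obtain ⟨ω1, r1, hr1, h1⟩ := exists_core_rep (hKM hz) (hcore z hz)
    rw [h1, cpt_star] at hcz
    by_cases h : ω = ω1
    · subst h
      rw [h1]; simp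
    · rw [if_neg h] at hcz
      linarith
  obtain ⟨z, hz, hzc⟩ : ∃ z ∈ K, z.2.2 ω = c := by
    have := hK.isPreconnected.intermediate_value hp hq (cont_star ω).continuousOn
    obtain ⟨z, hz, hzc⟩ := this ⟨hpc.le, hcq.le⟩
    exact ⟨z, hz, hzc⟩
  have hcK : cpt ω c ∈ K := by
    have := key z hz (by rw [hzc]; exact hc0)
    rw [hzc] at this
    rw [← this]; exact hz
  refine ⟨K ∩ {z | z.2.2 ω ≤ c}, K ∩ {z | c ≤ z.2.2 ω}, ?_, ?_, ?_, ?_, ?_, ?_, ?_⟩
  · exact hKc.inter (isClosed_le (cont_star ω) continuous_const)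
  · refine conn_of_retract hK inter_subset_left
      (ρ := fun z => (0, fun _ _ => 0, fun ω' => if ω' = ω then min c (z.2.2 ω) else z.2.2 ω'))
      ?_ ?_ ?_
    · apply Continuous.continuousOn
      refine Continuous.prodMk continuous_const (Continuous.prodMk continuous_const ?_)
      refine continuous_pi fun ω' => ?_
      by_cases h : ω' = ω
      · simp only [h, if_true]
        exact continuous_const.min (cont_star ω)
      · simp only [h, if_false]
        exact cont_star ω'
    · intro z hz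
      rcases le_or_gt (z.2.2 ω) c with h | h
      · have : ((0, fun _ _ => 0, fun ω' => if ω' = ω then min c (z.2.2 ω) else z.2.2 ω') :
            Amb L Ω) = z := by
          obtain ⟨ω1, r1, hr1, h1⟩ := exists_core_rep (hKM hz) (hcore z hz)
          refine amb_ext ?_ ?_ ?_
          · rw [h1]; simp
          · intro j l; rw [h1]; simp
          · intro ω'
            by_cases h' : ω' = ω
            · subst h'
              simp only [if_true]
              exact min_eq_right h
            · simp only [h', if_false]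
        rw [this]
        exact ⟨hz, h⟩
      · have hz2 := key z hz (hc0.trans h)
        have : ((0, fun _ _ => 0, fun ω' => if ω' = ω then min c (z.2.2 ω) else z.2.2 ω') :
            Amb L Ω) = cpt ω c := by
          refine amb_ext ?_ ?_ ?_
          · simp
          · intro j l; simp
          · intro ω'
            by_cases h' : ω' = ω
            · subst h'
              simp only [if_true, cpt_star]
              exact min_eq_left h.le
            · simp only [h', if_false, cpt_star]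
              rw [hz2, cpt_star, if_neg h']
        rw [this]
        refine ⟨hcK, ?_⟩
        show (cpt (L := L) ω c).2.2 ω ≤ c
        simp
    · rintro z ⟨hz, hzc⟩
      have hzc : z.2.2 ω ≤ c := hzc
      obtain ⟨ω1, r1, hr1, h1⟩ := exists_core_rep (hKM hz) (hcore z hz)
      refine amb_ext ?_ ?_ ?_
      · rw [h1]; simp
      · intro j l; rw [h1]; simp
      · intro ω'
        by_cases h' : ω' = ω
        · subst h'
          simp only [if_true]
          exact min_eq_right hzc
        · simp only [h', if_false]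
  · exact hKc.inter (isClosed_le continuous_const (cont_star ω))
  · refine conn_of_retract hK inter_subset_left
      (ρ := fun z => cpt ω (max c (z.2.2 ω))) ?_ ?_ ?_
    · apply Continuous.continuousOn
      exact (continuous_cpt ω).comp (continuous_const.max (cont_star ω))
    · intro z hz
      rcases le_or_gt c (z.2.2 ω) with h | h
      · show cpt ω (max c (z.2.2 ω)) ∈ _
        rw [max_eq_right h, ← key z hz (hc0.trans_le h)]
        exact ⟨hz, h⟩
      · show cpt ω (max c (z.2.2 ω)) ∈ _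
        rw [max_eq_left h.le]
        refine ⟨hcK, ?_⟩
        show c ≤ (cpt (L := L) ω c).2.2 ω
        simp
    · rintro z ⟨hz, hzc⟩
      have hzc : c ≤ z.2.2 ω := hzc
      show cpt ω (max c (z.2.2 ω)) = z
      rw [max_eq_right hzc, ← key z hz (hc0.trans_le hzc)]
  · refine ⟨inter_subset_left, fun h => ?_⟩
    have : q.2.2 ω ≤ c := (h hq).2
    linarith
  · refine ⟨inter_subset_left, fun h => ?_⟩
    have : c ≤ p.2.2 ω := (h hp).2
    linarith
  · ext z
    simp only [mem_union, mem_inter_iff, mem_ofPred_eq]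
    constructor
    · rintro (h | h) <;> exact h.1
    · intro h
      rcases le_total (z.2.2 ω) c with h' | h'
      · exact Or.inl ⟨h, h'⟩
      · exact Or.inr ⟨h, h'⟩

/-- the parameter as a function of the height. -/
noncomputable def par' (n : ℕ) (z : Amb L Ω) : ℝ := z.1 * 2 ^ (n + 1) - 1

lemma par'_pt (lt : ℕ → L → Ω) (n : ℕ) (e : ℕ → L) (w : ℝ) : par' n (pt lt n e w) = w := by
  unfold par'
  rw [pt_fst]
  unfold hgt
  field_simp
  ring

lemma cont_par' (n : ℕ) : Continuous (par' (L := L) (Ω := Ω) n) := by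
  unfold par'
  exact (cont_fst.mul continuous_const).sub continuous_const

variable [TopologicalSpace L] [DiscreteTopology L]

lemma cont_ray (lt : ℕ → L → Ω) (n : ℕ) (e : ℕ → L) : Continuous (fun w : ℝ => pt lt n e w) :=
  (continuous_pt lt n).comp (continuous_const.prodMk continuous_id)

/-- K is an arc. -/
lemma case_arc (lt : ℕ → L → Ω) (K : Set (Amb L Ω)) (n : ℕ) (e : ℕ → L)
    (hKc : IsClosed K) (hK : IsConnected K) (hnt : K.Nontrivial)
    (hray : ∀ z ∈ K, z = pt lt n e (par' n z)) :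
    ∃ A B : Set (Amb L Ω), IsClosed A ∧ IsConnected A ∧ IsClosed B ∧ IsConnected B ∧
        A ⊂ K ∧ B ⊂ K ∧ A ∪ B = K := by
  obtain ⟨p, hp, q, hq, hpq⟩ := hnt
  have hne : par' n p ≠ par' n q := by
    intro h
    apply hpq
    rw [hray p hp, hray q hq, h]
  obtain ⟨p, hp, q, hq, hlt⟩ : ∃ p ∈ K, ∃ q ∈ K, par' n p < par' n q := by
    rcases lt_or_gt_of_ne hne with h | h
    · exact ⟨p, hp, q, hq, h⟩
    · exact ⟨q, hq, p, hp, h⟩
  set c : ℝ := (par' n p + par' n q) / 2 with hc
  have hpc : par' n p < c := by linarith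
  have hcq : c < par' n q := by linarith
  obtain ⟨z, hz, hzc⟩ : ∃ z ∈ K, par' n z = c := by
    have := hK.isPreconnected.intermediate_value hp hq (cont_par' n).continuousOn
    obtain ⟨z, hz, hzc⟩ := this ⟨hpc.le, hcq.le⟩
    exact ⟨z, hz, hzc⟩
  have hcK : pt lt n e c ∈ K := by
    have := hray z hz
    rw [hzc] at this
    rw [← this]; exact hz
  refine ⟨K ∩ {z | par' n z ≤ c}, K ∩ {z | c ≤ par' n z}, ?_, ?_, ?_, ?_, ?_, ?_, ?_⟩
  · exact hKc.inter (isClosed_le (cont_par' n) continuous_const)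
  · refine conn_of_retract hK inter_subset_left
      (ρ := fun z => pt lt n e (min c (par' n z))) ?_ ?_ ?_
    · apply Continuous.continuousOn
      exact (cont_ray lt n e).comp (continuous_const.min (cont_par' n))
    · intro z hz
      show pt lt n e (min c (par' n z)) ∈ _
      rcases le_or_gt (par' n z) c with h | h
      · rw [min_eq_right h, ← hray z hz]
        exact ⟨hz, h⟩
      · rw [min_eq_left h.le]
        refine ⟨hcK, ?_⟩
        show par' n (pt lt n e c) ≤ c
        rw [par'_pt]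
    · rintro z ⟨hz, hzc⟩
      have hzc : par' n z ≤ c := hzc
      show pt lt n e (min c (par' n z)) = z
      rw [min_eq_right hzc, ← hray z hz]
  · exact hKc.inter (isClosed_le continuous_const (cont_par' n))
  · refine conn_of_retract hK inter_subset_left
      (ρ := fun z => pt lt n e (max c (par' n z))) ?_ ?_ ?_
    · apply Continuous.continuousOn
      exact (cont_ray lt n e).comp (continuous_const.max (cont_par' n))
    · intro z hz
      show pt lt n e (max c (par' n z)) ∈ _
      rcases le_or_gt c (par' n z) with h | h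
      · rw [max_eq_right h, ← hray z hz]
        exact ⟨hz, h⟩
      · rw [max_eq_left h.le]
        refine ⟨hcK, ?_⟩
        show c ≤ par' n (pt lt n e c)
        rw [par'_pt]
    · rintro z ⟨hz, hzc⟩
      have hzc : c ≤ par' n z := hzc
      show pt lt n e (max c (par' n z)) = z
      rw [max_eq_right hzc, ← hray z hz]
  · refine ⟨inter_subset_left, fun h => ?_⟩
    have : par' n q ≤ c := (h hq).2
    linarith
  · refine ⟨inter_subset_left, fun h => ?_⟩
    have : c ≤ par' n p := (h hp).2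
    linarith
  · ext z
    simp only [mem_union, mem_inter_iff, mem_ofPred_eq]
    constructor
    · rintro (h | h) <;> exact h.1
    · intro h
      rcases le_total (par' n z) c with h' | h'
      · exact Or.inl ⟨h, h'⟩
      · exact Or.inr ⟨h, h'⟩

/-- unions of the lower part with segments hanging down. -/
lemma conn_hang (lt : ℕ → L → Ω) (E : Set (ℕ → L)) (K B : Set (Amb L Ω)) (n : ℕ)
    (hBK : B ⊆ K)
    (hlow : IsConnected (K ∩ {z | z.1 ≤ hgt n 0}))
    (hrep : ∀ z ∈ K, hgt n 0 < z.1 → ∃ e ∈ E, ∃ w, 0 < w ∧ w ≤ 1 ∧ z = pt lt n e w)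
    (hBlow : K ∩ {z | z.1 ≤ hgt n 0} ⊆ B)
    (hBseg : ∀ e ∈ E, ∀ w, 0 < w → w ≤ 1 → pt lt n e w ∈ B → ∀ v, 0 ≤ v → v ≤ w →
      pt lt n e v ∈ B) : IsConnected B := by
  obtain ⟨x0, hx0⟩ := hlow.nonempty
  refine ⟨⟨x0, hBlow hx0⟩, ?_⟩
  refine isPreconnected_of_forall x0 ?_
  intro y hy
  rcases le_or_gt y.1 (hgt n 0) with h | h
  · exact ⟨_, hBlow, hx0, ⟨hBK hy, h⟩, hlow.isPreconnected⟩
  · obtain ⟨e, he, w, hw0, hw1, rfl⟩ := hrep y (hBK hy) h
    refine ⟨(K ∩ {z | z.1 ≤ hgt n 0}) ∪ (fun v => pt lt n e v) '' Icc 0 w, ?_, Or.inl hx0,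
      Or.inr ⟨w, ⟨hw0.le, le_rfl⟩, rfl⟩, ?_⟩
    · rintro z (hz | ⟨v, hv, rfl⟩)
      · exact hBlow hz
      · exact hBseg e he w hw0 hw1 hy v hv.1 hv.2
    · have h0 : pt lt n e 0 ∈ B := hBseg e he w hw0 hw1 hy 0 le_rfl hw0.le
      refine IsPreconnected.union (pt lt n e 0) ⟨hBK h0, ?_⟩ ⟨0, ⟨le_rfl, hw0.le⟩, rfl⟩
        hlow.isPreconnected (isPreconnected_Icc.image _ (cont_ray lt n e).continuousOn)
      show (pt lt n e 0).1 ≤ hgt n 0
      rw [pt_fst]

end gen

theorem pf_StmtHD (hC : StmtCompact) (hCut : StmtCut) (hP : StmtPush) : StmtHD := by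
  intro L Ω _ _ _ _ _ _ lt E hE K hKM hKc hK hnt
  by_cases hcore : ∀ z ∈ K, z.1 ≤ 0
  · exact case_core lt E K hKM hKc hK hnt hcore
  push Not at hcore
  obtain ⟨z0, hz0K, hz0⟩ := hcore
  classical
  have hex : ∃ n : ℕ, ∃ e ∈ E, ∃ w, 0 < w ∧ w ≤ 1 ∧ pt lt n e w ∈ K := by
    obtain ⟨n, e, w, he, hw0, hw1, rfl⟩ := exists_rep (hKM hz0K) hz0
    exact ⟨n, e, he, w, hw0, hw1, hz0K⟩
  set n := Nat.find hex with hn
  obtain ⟨e1, he1, w1, hw10, hw11, hz1⟩ : ∃ e ∈ E, ∃ w, 0 < w ∧ w ≤ 1 ∧ pt lt n e w ∈ K :=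
    Nat.find_spec hex
  have hmin : ∀ m e w, e ∈ E → 0 < w → w ≤ 1 → pt lt m e w ∈ K → n ≤ m := by
    intro m e w he hw0 hw1 h
    exact Nat.find_min' hex ⟨e, he, w, hw0, hw1, h⟩
  -- representation of the high points
  have hrep : ∀ z ∈ K, hgt n 0 < z.1 → ∃ e ∈ E, ∃ w, 0 < w ∧ w ≤ 1 ∧ z = pt lt n e w := by
    intro z hz hh
    obtain ⟨m, e, w, he, hw0, hw1, rfl⟩ := exists_rep (hKM hz) ((hgt_pos le_rfl).trans hh)
    have h1 := hmin m e w he hw0 hw1 hz
    rcases h1.lt_or_eq with h2 | h2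
    · exfalso
      have h3 := hgt_le_of_level (n := n) (m := m) (w := 0) (v := w) h2 le_rfl hw1
      rw [pt_fst] at hh
      linarith
    · rw [← h2] at hz ⊢
      exact ⟨e, he, w, hw0, hw1, rfl⟩
  have hz1h : hgt n 0 < hgt n w1 := hgt_lt_of_lt hw10
  by_cases hlowne : (K ∩ {z | z.1 ≤ hgt n 0}).Nonempty
  swap
  · -- case 2a
    have hall : ∀ z ∈ K, hgt n 0 < z.1 := by
      intro z hz
      by_contra hcon
      push Not at hcon
      exact hlowne ⟨z, hz, hcon⟩
    have hKcomp : IsCompact K := (hC L Ω lt E hE).of_isClosed_subset hKc hKM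
    obtain ⟨zm, hzm, hzmin⟩ := hKcomp.exists_isMinOn hK.nonempty cont_fst.continuousOn
    obtain ⟨em, hem, wm, hwm0, hwm1, hzmrep⟩ := hrep zm hzm (hall zm hzm)
    have hzmin' : ∀ z ∈ K, hgt n wm ≤ z.1 := by
      intro z hz
      have : zm.1 ≤ z.1 := hzmin hz
      rw [hzmrep] at this
      exact this
    have hnot : pt lt n e1 (wm / 2) ∉ K := by
      intro h
      have h1 := hzmin' _ h
      rw [pt_fst] at h1
      have := hgt_le_iff.1 h1
      linarith
    have hlt1 : hgt n (wm / 2) < hgt n w1 := by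
      have h1 := hzmin' _ hz1
      rw [pt_fst] at h1
      have h2 : hgt n (wm / 2) < hgt n wm := hgt_lt_of_lt (by linarith)
      linarith
    have hcut := hCut L Ω lt E hE K hKM hKc hK.isPreconnected n e1 (wm / 2) he1 (by linarith)
      (by linarith) hnot n w1 ⟨hw10.le, hw11⟩ hlt1 hz1
    refine case_arc lt K n e1 hKc hK hnt ?_
    intro z hz
    obtain ⟨e, he, w, hw0, hw1, hzr⟩ := hrep z hz (hall z hz)
    have hlab : ∀ j, n ≤ j → e j = e1 j := by
      intro j hj
      by_contra hne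
      have := (hcut z hz).2 j (e j) hj hne
      rw [hzr] at this
      simp only [pt_wt, if_true] at this
      have h2 := wt_pos hw0 hj
      linarith
    have hz2 : z = pt lt n e1 w := by rw [hzr]; exact pt_congr lt hlab
    rw [hz2, par'_pt]
  -- case 2b
  have hseg : ∀ e ∈ E, ∀ w, 0 < w → w ≤ 1 → pt lt n e w ∈ K → ∀ v, 0 ≤ v → v ≤ w →
      pt lt n e v ∈ K := by
    intro e he w hw0 hw1 hw
    have hpos : ∀ v, 0 < v → v ≤ w → pt lt n e v ∈ K := by
      intro v hv0 hv1
      rcases hv1.lt_or_eq with h | h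
      · by_contra hcon
        obtain ⟨y, hyK, hyl⟩ := hlowne
        have h1 := (hCut L Ω lt E hE K hKM hKc hK.isPreconnected n e v he hv0 (by linarith) hcon
          n w ⟨hw0.le, hw1⟩ (hgt_lt_of_lt h) hw y hyK).1
        have h2 : hgt n 0 < hgt n v := hgt_lt_of_lt hv0
        have hyl : y.1 ≤ hgt n 0 := hyl
        linarith
      · rw [h]; exact hw
    intro v hv0 hv1
    rcases hv0.lt_or_eq with h | h
    · exact hpos v h hv1
    · subst h
      have hcl : IsClosed {v : ℝ | pt lt n e v ∈ K} := hKc.preimage (cont_ray lt n e)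
      have hsub : closure (Ioc 0 w) ⊆ {v : ℝ | pt lt n e v ∈ K} := by
        apply hcl.closure_subset_iff.2
        intro v hv
        exact hpos v hv.1 hv.2
      rw [closure_Ioc hw0.ne] at hsub
      exact hsub ⟨le_rfl, hw0.le⟩
  have hlow : IsConnected (K ∩ {z | z.1 ≤ hgt n 0}) := by
    obtain ⟨hp1, hp2, hp3, hp4⟩ := hP L Ω lt E (n + 1)
    rw [← hgt_zero_succ] at hp3 hp4
    refine conn_of_retract hK inter_subset_left (ρ := push (n + 1)) (hp1.mono hKM) ?_ ?_
    · intro z hz
      rcases le_or_gt z.1 (hgt n 0) with h | h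
      · rw [hp3 z (hKM hz) h]
        exact ⟨hz, h⟩
      · obtain ⟨e, he, w, hw0, hw1, rfl⟩ := hrep z hz h
        rw [hp4 e he n w ⟨hw0.le, hw1⟩ (hgt_mono hw0.le), ← pt_zero]
        refine ⟨hseg e he w hw0 hw1 hz 0 le_rfl hw0.le, ?_⟩
        show (pt lt n e 0).1 ≤ hgt n 0
        rw [pt_fst]
    · rintro z ⟨hz, hzl⟩
      exact hp3 z (hKM hz) hzl
  have hclow : IsClosed {z : Amb L Ω | z.1 ≤ hgt n 0} := isClosed_le cont_fst continuous_const
  by_cases hdiff : ∃ e ∈ E, ∃ w, 0 < w ∧ w ≤ 1 ∧ pt lt n e w ∈ K ∧ ∃ e' ∈ E, ∃ w', 0 < w' ∧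
      w' ≤ 1 ∧ pt lt n e' w' ∈ K ∧ ∃ j, n ≤ j ∧ e j ≠ e' j
  · -- case (iii)
    obtain ⟨e, he, w, hw0, hw1, hwK, e', he', w', hw0', hw1', hwK', j, hj, hne⟩ := hdiff
    refine ⟨K ∩ ({z | z.1 ≤ hgt n 0} ∪ {z | ∀ l, l ≠ e j → z.2.1 j l = 0}),
      K ∩ ({z | z.1 ≤ hgt n 0} ∪ {z | z.2.1 j (e j) = 0}), ?_, ?_, ?_, ?_, ?_, ?_, ?_⟩
    · refine hKc.inter (hclow.union ?_)
      have : {z : Amb L Ω | ∀ l, l ≠ e j → z.2.1 j l = 0} =
          ⋂ l, ⋂ (_ : l ≠ e j), {z : Amb L Ω | z.2.1 j l = 0} := by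
        ext z; simp
      rw [this]
      exact isClosed_iInter fun l => isClosed_iInter fun _ => isClosed_eq (cont_wt j l)
        continuous_const
    · refine conn_hang lt E K _ n inter_subset_left hlow hrep
        (fun z hz => ⟨hz.1, Or.inl hz.2⟩) ?_
      rintro e2 he2 w2 hw20 hw21 ⟨h2K, h2⟩ v hv0 hv1
      refine ⟨hseg e2 he2 w2 hw20 hw21 h2K v hv0 hv1, Or.inr ?_⟩
      rcases h2 with h2 | h2
      · exfalso
        have h2 : hgt n w2 ≤ hgt n 0 := h2
        have := hgt_le_iff.1 h2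
        linarith
      · intro l hl
        have h3 := h2 l hl
        simp only [pt_wt] at h3 ⊢
        by_cases h4 : e2 j = l
        · rw [if_pos h4] at h3
          have := wt_pos hw20 hj
          linarith
        · rw [if_neg h4]
    · exact hKc.inter (hclow.union (isClosed_eq (cont_wt j _) continuous_const))
    · refine conn_hang lt E K _ n inter_subset_left hlow hrep
        (fun z hz => ⟨hz.1, Or.inl hz.2⟩) ?_
      rintro e2 he2 w2 hw20 hw21 ⟨h2K, h2⟩ v hv0 hv1
      refine ⟨hseg e2 he2 w2 hw20 hw21 h2K v hv0 hv1, Or.inr ?_⟩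
      rcases h2 with h2 | h2
      · exfalso
        have h2 : hgt n w2 ≤ hgt n 0 := h2
        have := hgt_le_iff.1 h2
        linarith
      · have h3 : (pt lt n e2 w2).2.1 j (e j) = 0 := h2
        show (pt lt n e2 v).2.1 j (e j) = 0
        simp only [pt_wt] at h3 ⊢
        by_cases h4 : e2 j = e j
        · rw [if_pos h4] at h3
          have := wt_pos hw20 hj
          linarith
        · rw [if_neg h4]
    · refine ⟨inter_subset_left, fun h => ?_⟩
      rcases (h hwK').2 with h1 | h1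
      · have h2 : hgt n w' ≤ hgt n 0 := h1
        have := hgt_le_iff.1 h2
        linarith
      · have h2 := h1 (e' j) (fun hc => hne hc.symm)
        simp only [pt_wt, if_true] at h2
        have := wt_pos hw0' hj
        linarith
    · refine ⟨inter_subset_left, fun h => ?_⟩
      rcases (h hwK).2 with h1 | h1
      · have h2 : hgt n w ≤ hgt n 0 := h1
        have := hgt_le_iff.1 h2
        linarith
      · have h2 : (pt lt n e w).2.1 j (e j) = 0 := h1
        simp only [pt_wt, if_true] at h2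
        have := wt_pos hw0 hj
        linarith
    · ext z
      constructor
      · rintro (h | h) <;> exact h.1
      · intro hz
        rcases le_or_gt z.1 (hgt n 0) with h | h
        · exact Or.inl ⟨hz, Or.inl h⟩
        · obtain ⟨e2, he2, w2, hw20, hw21, rfl⟩ := hrep z hz h
          by_cases h4 : e2 j = e j
          · refine Or.inl ⟨hz, Or.inr ?_⟩
            intro l hl
            rw [pt_wt, if_neg (fun hc => hl (hc.symm.trans h4))]
          · refine Or.inr ⟨hz, Or.inr ?_⟩
            show (pt lt n e2 w2).2.1 j (e j) = 0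
            rw [pt_wt, if_neg h4]
  -- case (iv)
  push Not at hdiff
  have hone : ∀ z ∈ K, hgt n 0 < z.1 → z = pt lt n e1 (par' n z) := by
    intro z hz h
    obtain ⟨e, he, w, hw0, hw1, hzr⟩ := hrep z hz h
    have hlab : ∀ j, n ≤ j → e j = e1 j := by
      intro j hj
      exact hdiff e he w hw0 hw1 (hzr ▸ hz) e1 he1 w1 hw10 hw11 hz1 j hj
    have hz2 : z = pt lt n e1 w := by rw [hzr]; exact pt_congr lt hlab
    rw [hz2, par'_pt]
  refine ⟨K ∩ {z | z.1 ≤ hgt n (w1 / 2)}, K ∩ {z | hgt n (w1 / 2) ≤ z.1}, ?_, ?_, ?_, ?_, ?_, ?_,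
    ?_⟩
  · exact hKc.inter (isClosed_le cont_fst continuous_const)
  · refine conn_hang lt E K _ n inter_subset_left hlow hrep ?_ ?_
    · rintro z ⟨hz, hzl⟩
      refine ⟨hz, ?_⟩
      have hzl : z.1 ≤ hgt n 0 := hzl
      exact hzl.trans (hgt_mono (by linarith))
    · rintro e2 he2 w2 hw20 hw21 ⟨h2K, h2⟩ v hv0 hv1
      refine ⟨hseg e2 he2 w2 hw20 hw21 h2K v hv0 hv1, ?_⟩
      have h2 : hgt n w2 ≤ hgt n (w1 / 2) := h2
      show hgt n v ≤ hgt n (w1 / 2)
      exact (hgt_mono hv1).trans h2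
  · exact hKc.inter (isClosed_le continuous_const cont_fst)
  · have hc0 : 0 < w1 / 2 := by linarith
    have hcK : pt lt n e1 (w1 / 2) ∈ K := hseg e1 he1 w1 hw10 hw11 hz1 _ hc0.le (by linarith)
    have hpar : ∀ z : Amb L Ω, hgt n (w1 / 2) ≤ z.1 ↔ w1 / 2 ≤ par' n z := by
      intro z
      unfold hgt par'
      rw [div_le_iff₀ (by positivity)]
      constructor <;> intro h <;> linarith
    refine conn_of_retract hK inter_subset_left
      (ρ := fun z => pt lt n e1 (max (w1 / 2) (par' n z))) ?_ ?_ ?_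
    · apply Continuous.continuousOn
      exact (cont_ray lt n e1).comp (continuous_const.max (cont_par' n))
    · intro z hz
      show pt lt n e1 (max (w1 / 2) (par' n z)) ∈ _
      rcases le_or_gt (w1 / 2) (par' n z) with h | h
      · have h2 := (hpar z).2 h
        have h3 : hgt n 0 < z.1 := lt_of_lt_of_le (hgt_lt_of_lt hc0) h2
        rw [max_eq_right h, ← hone z hz h3]
        exact ⟨hz, h2⟩
      · rw [max_eq_left h.le]
        refine ⟨hcK, ?_⟩
        show hgt n (w1 / 2) ≤ (pt lt n e1 (w1 / 2)).1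
        rw [pt_fst]
    · rintro z ⟨hz, hzc⟩
      have hzc : hgt n (w1 / 2) ≤ z.1 := hzc
      have h3 : hgt n 0 < z.1 := lt_of_lt_of_le (hgt_lt_of_lt hc0) hzc
      show pt lt n e1 (max (w1 / 2) (par' n z)) = z
      rw [max_eq_right ((hpar z).1 hzc), ← hone z hz h3]
  · refine ⟨inter_subset_left, fun h => ?_⟩
    have h1 : hgt n w1 ≤ hgt n (w1 / 2) := (h hz1).2
    have := hgt_le_iff.1 h1
    linarith
  · refine ⟨inter_subset_left, fun h => ?_⟩
    obtain ⟨y, hyK, hyl⟩ := hlowne
    have h1 : hgt n (w1 / 2) ≤ y.1 := (h hyK).2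
    have h2 : y.1 ≤ hgt n 0 := hyl
    have h3 : hgt n 0 < hgt n (w1 / 2) := hgt_lt_of_lt (by linarith)
    linarith
  · ext z
    simp only [mem_union, mem_inter_iff, mem_ofPred_eq]
    constructor
    · rintro (h | h) <;> exact h.1
    · intro h
      rcases le_total z.1 (hgt n (w1 / 2)) with h' | h'
      · exact Or.inl ⟨h, h'⟩
      · exact Or.inr ⟨h, h'⟩

end Helper67.LD
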